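import Pool.Agent.Lib.B203.Main

/-!
A smooth involution of `S¹ × B³` without equivariant non-separating 3-balls: a negative answer to the
question whether every smooth action of a finite cyclic group on `S¹ × B³` admits an equivariant,
neatly embedded, non-separating 3-ball.
-/

set_option autoImplicit false

open Set Metric
open scoped ContDiff

namespace Pool.Agent.Results.MP_b20371_gt.NoEquivariantBall

/-- Euclidean 3-space. -/
abbrev E3 : Type := EuclideanSpace ℝ (Fin 3)

/-- The manifold `S¹ × B³`, as a subset of `ℂ × ℝ³`. -/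
def S1B3 : Set (ℂ × E3) := {p | ‖p.1‖ = 1 ∧ ‖p.2‖ ≤ 1}

/-- A smooth action of the cyclic group `ℤ/n` on `S¹ × B³`: every group element acts on `S¹ × B³`
by the restriction of a map which is smooth at every point of `S¹ × B³` as a map of the ambient
space `ℂ × ℝ³`. Since the inverse of a group element acts in the same way, each acts by a
diffeomorphism. -/
structure IsSmoothAction (n : ℕ) (act : ZMod n → ℂ × E3 → ℂ × E3) : Prop where
  maps : ∀ g, ∀ p ∈ S1B3, act g p ∈ S1B3
  zero : ∀ p ∈ S1B3, act 0 p = p
  add : ∀ g h, ∀ p ∈ S1B3, act (g + h) p = act g (act h p)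
  smooth : ∀ g, ∀ p ∈ S1B3, ContDiffAt ℝ ∞ (act g) p

/-- `B` is a neatly embedded 3-ball in `S¹ × B³`: the image of the closed unit ball under a smooth
injective immersion `e` (smooth as a map of `ℝ³` at every point of the closed ball) into
`S¹ × B³`, such that exactly the points of the unit sphere are mapped to the boundary `S¹ × S²`,
and along the unit sphere `e` is transverse to `S¹ × S²` (some tangent vector of the ball is mapped
to a vector whose second component is not orthogonal to the position vector). -/
def IsNeatBall (B : Set (ℂ × E3)) : Prop :=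
  ∃ e : E3 → ℂ × E3,
    (∀ x ∈ closedBall (0 : E3) 1, ContDiffAt ℝ ∞ e x) ∧
    InjOn e (closedBall 0 1) ∧
    (∀ x ∈ closedBall (0 : E3) 1, Function.Injective (fderiv ℝ e x)) ∧
    e '' closedBall 0 1 = B ∧ B ⊆ S1B3 ∧
    (∀ x ∈ closedBall (0 : E3) 1, ‖(e x).2‖ = 1 ↔ ‖x‖ = 1) ∧
    (∀ x : E3, ‖x‖ = 1 → ∃ v : E3, inner ℝ (e x).2 (fderiv ℝ e x v).2 ≠ 0)

/-- `B` is equivariant: every group element maps `B` onto itself or off itself. -/
def IsEquivariant {n : ℕ} (act : ZMod n → ℂ × E3 → ℂ × E3) (B : Set (ℂ × E3)) : Prop :=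
  ∀ g, act g '' B = B ∨ act g '' B ∩ B = ∅

/-- There is a smooth action of `ℤ/2` on `S¹ × B³` such that no neatly embedded non-separating
3-ball is equivariant. -/
theorem result :
    ∃ act : ZMod 2 → ℂ × E3 → ℂ × E3, IsSmoothAction 2 act ∧
      ∀ B : Set (ℂ × E3), IsNeatBall B → IsConnected (S1B3 \ B) → ¬ IsEquivariant act B := by
  classical
  obtain ⟨τ, hτ, h⟩ := Pool.B203.main
  have h01 : ∀ g : ZMod 2, g = 0 ∨ g = 1 := by decide
  have h10 : (1 : ZMod 2) ≠ 0 := by decide
  refine ⟨fun g p => if g = 0 then p else τ p, ⟨?_, ?_, ?_, ?_⟩, ?_⟩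
  · intro g p hp
    by_cases hg : g = 0
    · simp only [hg, if_true]
      exact hp
    · simp only [hg, if_false]
      exact hτ.maps hp
  · intro p _
    simp
  · intro g k p hp
    rcases h01 g with rfl | rfl <;> rcases h01 k with rfl | rfl
    · simp
    · simp
    · simp
    · have h11 : (1 + 1 : ZMod 2) = 0 := by decide
      simp only [h11, h10, if_true, if_false]
      exact (hτ.invol p hp).symm
  · intro g p hp
    by_cases hg : g = 0
    · simp only [hg, if_true]
      exact contDiffAt_id
    · simp only [hg, if_false]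
      exact hτ.smooth p hp
  · intro B hB hconn heq
    refine h B hB hconn ?_
    have h1 := heq 1
    simp only [h10, if_false] at h1
    exact h1.imp id fun h2 => Set.disjoint_iff_inter_eq_empty.2 h2

end Pool.Agent.Results.MP_b20371_gt.NoEquivariantBall
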